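import Pool.Agent.Helper53.SL.St

/-!
# Module POW of project SL (MP_9062f4_nt)

The power sums of the roots of an integer polynomial with leading coefficient `1` or `-1` have the form
`∑ d ∈ n.divisors, d * g d` with integers `g d`.  Proof with the operator `D u = -X u' / u` on the units of
the power series ring.
-/

set_option autoImplicit false

namespace Pool.Agent.Helper37.SL

open Pool.Agent.Helper53.SL

noncomputable section

/-- the operator `-X u' / u` -/
def D {R : Type} [CommRing R] (u : (PowerSeries R)ˣ) : PowerSeries R :=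
  -(PowerSeries.X * PowerSeries.derivative R (u : PowerSeries R) * ((u⁻¹ : (PowerSeries R)ˣ) : PowerSeries R))

theorem D_mul {R : Type} [CommRing R] (u v : (PowerSeries R)ˣ) : D (u * v) = D u + D v := by
  unfold D
  rw [Units.val_mul, Derivation.leibniz, mul_inv, Units.val_mul, smul_eq_mul, smul_eq_mul]
  have hu : (u : PowerSeries R) * ((u⁻¹ : (PowerSeries R)ˣ) : PowerSeries R) = 1 := Units.mul_inv u
  have hv : (v : PowerSeries R) * ((v⁻¹ : (PowerSeries R)ˣ) : PowerSeries R) = 1 := Units.mul_inv v
  linear_combination (-(PowerSeries.X * PowerSeries.derivative R (v : PowerSeries R) * ((v⁻¹ : (PowerSeries R)ˣ) : PowerSeries R))) * hu +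
    (-(PowerSeries.X * PowerSeries.derivative R (u : PowerSeries R) * ((u⁻¹ : (PowerSeries R)ˣ) : PowerSeries R))) * hv

theorem D_spec {R : Type} [CommRing R] (u : (PowerSeries R)ˣ) :
    (u : PowerSeries R) * D u = -(PowerSeries.X * PowerSeries.derivative R (u : PowerSeries R)) := by
  unfold D
  have hu : (u : PowerSeries R) * ((u⁻¹ : (PowerSeries R)ˣ) : PowerSeries R) = 1 := Units.mul_inv u
  linear_combination (-(PowerSeries.X * PowerSeries.derivative R (u : PowerSeries R))) * hu

theorem D_unique {R : Type} [CommRing R] (u : (PowerSeries R)ˣ) (P : PowerSeries R)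
    (h : (u : PowerSeries R) * P = -(PowerSeries.X * PowerSeries.derivative R (u : PowerSeries R))) : D u = P := by
  have h1 : (u : PowerSeries R) * D u = (u : PowerSeries R) * P := by rw [D_spec, h]
  exact (Units.mul_right_inj u).mp h1

theorem D_one {R : Type} [CommRing R] : D (1 : (PowerSeries R)ˣ) = 0 := by
  apply D_unique
  rw [Units.val_one, PowerSeries.derivative_one]; simp

/-- `D` as a homomorphism -/
def DH (R : Type) [CommRing R] : (PowerSeries R)ˣ →* Multiplicative (PowerSeries R) where
  toFun u := Multiplicative.ofAdd (D u)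
  map_one' := by rw [D_one]; rfl
  map_mul' u v := by rw [D_mul]; rfl

theorem D_zpow {R : Type} [CommRing R] (u : (PowerSeries R)ˣ) (k : ℤ) : D (u ^ k) = k • D u := by
  have h := map_zpow (DH R) u k
  exact congrArg Multiplicative.toAdd h

theorem E_aux (N : ℕ) : (1 - PowerSeries.X ^ (N + 1)) *
    (PowerSeries.mk fun n => if (N + 1) ∣ n then (1 : ℤ) else 0) = 1 := by
  ext n
  rw [sub_mul, one_mul, map_sub, PowerSeries.coeff_mk, PowerSeries.coeff_X_pow_mul', PowerSeries.coeff_one, PowerSeries.coeff_mk]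
  by_cases hn : n = 0
  · subst hn; simp
  · by_cases h : N + 1 ≤ n
    · rw [if_pos h, if_neg hn]
      by_cases h1 : (N + 1) ∣ n
      · rw [if_pos h1, if_pos (Nat.dvd_sub h1 (dvd_refl (N + 1)))]; simp
      · rw [if_neg h1, if_neg]
        · simp
        · intro h2
          apply h1
          have := (Nat.dvd_add_right h2).mpr (dvd_refl (N + 1))
          rwa [Nat.sub_add_cancel h] at this
    · rw [if_neg h, if_neg hn, if_neg]
      · simp
      · intro h1
        exact h (Nat.le_of_dvd (Nat.pos_of_ne_zero hn) h1)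

/-- the unit `1 - X ^ (N + 1)` -/
def E (N : ℕ) : (PowerSeries ℤ)ˣ where
  val := 1 - PowerSeries.X ^ (N + 1)
  inv := PowerSeries.mk fun n => if (N + 1) ∣ n then 1 else 0
  val_inv := E_aux N
  inv_val := by rw [mul_comm]; exact E_aux N

theorem coeff_D_E (N n : ℕ) : PowerSeries.coeff n (D (E N)) = if 1 ≤ n ∧ (N + 1) ∣ n then ((N : ℤ) + 1) else 0 := by
  have h1 : D (E N) = ((N : ℤ) + 1) • (PowerSeries.X ^ (N + 1) * (PowerSeries.mk fun n => if (N + 1) ∣ n then (1 : ℤ) else 0)) := by
    apply D_unique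
    have h2 : ((E N : (PowerSeries ℤ)ˣ) : PowerSeries ℤ) = 1 - PowerSeries.X ^ (N + 1) := rfl
    rw [h2, map_sub, PowerSeries.derivative_one, PowerSeries.derivative_pow, PowerSeries.derivative_X]
    have h3 := E_aux N
    have h4 : (1 - PowerSeries.X ^ (N + 1)) * (((N : ℤ) + 1) • (PowerSeries.X ^ (N + 1) * (PowerSeries.mk fun n => if (N + 1) ∣ n then (1 : ℤ) else 0)))
      = ((N : ℤ) + 1) • (PowerSeries.X ^ (N + 1) * ((1 - PowerSeries.X ^ (N + 1)) * (PowerSeries.mk fun n => if (N + 1) ∣ n then (1 : ℤ) else 0))) := by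
      rw [mul_smul_comm]; congr 1; ring
    rw [h4, h3]
    rw [zsmul_eq_mul]; push_cast
    ring
  rw [h1, map_smul, PowerSeries.coeff_X_pow_mul', PowerSeries.coeff_mk]
  by_cases hn : n = 0
  · subst hn; simp
  · have hn1 : 1 ≤ n := Nat.pos_of_ne_zero hn
    by_cases h2 : (N + 1) ∣ n
    · rw [if_pos (Nat.le_of_dvd hn1 h2), if_pos (Nat.dvd_sub h2 (dvd_refl (N + 1))), if_pos ⟨hn1, h2⟩]; simp
    · rw [if_neg (show ¬ (1 ≤ n ∧ (N + 1) ∣ n) from fun h => h2 h.2)]
      by_cases h : N + 1 ≤ n
      · rw [if_pos h, if_neg]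
        · simp
        · intro h3
          apply h2
          have := (Nat.dvd_add_right h3).mpr (dvd_refl (N + 1))
          rwa [Nat.sub_add_cancel h] at this
      · rw [if_neg h]; simp

/-- the successive quotients -/
def G (F : (PowerSeries ℤ)ˣ) : ℕ → (PowerSeries ℤ)ˣ
  | 0 => F
  | (N + 1) => G F N * E N ^ (PowerSeries.coeff (N + 1) (G F N : PowerSeries ℤ))

/-- the exponents -/
def gg (F : (PowerSeries ℤ)ˣ) : ℕ → ℤ
  | 0 => 0
  | (N + 1) => -PowerSeries.coeff (N + 1) (G F N : PowerSeries ℤ)

theorem D_G_succ (F : (PowerSeries ℤ)ˣ) (N : ℕ) : D (G F (N + 1)) = D (G F N) - gg F (N + 1) • D (E N) := by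
  change D (G F N * E N ^ (PowerSeries.coeff (N + 1) (G F N : PowerSeries ℤ))) = _
  rw [D_mul, D_zpow]
  change _ = D (G F N) - (-PowerSeries.coeff (N + 1) (G F N : PowerSeries ℤ)) • D (E N)
  rw [neg_smul, sub_neg_eq_add]

theorem cc_E (N : ℕ) : PowerSeries.constantCoeff ((E N : (PowerSeries ℤ)ˣ) : PowerSeries ℤ) = 1 := by
  change PowerSeries.constantCoeff (1 - PowerSeries.X ^ (N + 1)) = 1
  rw [map_sub, map_pow, PowerSeries.constantCoeff_X]; simp

theorem cc_G (F : (PowerSeries ℤ)ˣ) (hF : PowerSeries.constantCoeff (F : PowerSeries ℤ) = 1) (N : ℕ) :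
    PowerSeries.constantCoeff ((G F N : (PowerSeries ℤ)ˣ) : PowerSeries ℤ) = 1 := by
  induction N with
  | zero => exact hF
  | succ N ih =>
    let φ : (PowerSeries ℤ)ˣ →* ℤˣ := Units.map (PowerSeries.constantCoeff (R := ℤ)).toMonoidHom
    have h1 : φ (E N) = 1 := Units.ext (cc_E N)
    have h2 : φ (G F N) = 1 := Units.ext ih
    have h3 : φ (G F (N + 1)) = 1 := by
      change φ (G F N * E N ^ (PowerSeries.coeff (N + 1) (G F N : PowerSeries ℤ))) = 1
      rw [map_mul, map_zpow, h1, h2, one_zpow, one_mul]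
    exact congrArg Units.val h3

theorem coeff_low (F : (PowerSeries ℤ)ˣ) (hF : PowerSeries.constantCoeff (F : PowerSeries ℤ) = 1) (N : ℕ) :
    ∀ n ≤ N, PowerSeries.coeff n (D (G F N)) = 0 := by
  induction N with
  | zero =>
    intro n hn
    have hn0 : n = 0 := by omega
    subst hn0
    unfold D
    rw [map_neg, mul_assoc, PowerSeries.coeff_zero_X_mul, neg_zero]
  | succ N ih =>
    intro n hn
    rw [D_G_succ, map_sub, map_smul, coeff_D_E]
    rcases Nat.lt_or_ge n (N + 1) with h | h
    · rw [ih n (by omega), if_neg]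
      · simp
      · rintro ⟨h1, h2⟩
        exact absurd (Nat.le_of_dvd h1 h2) (by omega)
    · have hn1 : n = N + 1 := by omega
      subst hn1
      rw [if_pos ⟨by omega, dvd_refl _⟩]
      have h1 := congrArg (PowerSeries.coeff (N + 1)) (D_spec (G F N))
      rw [map_neg, PowerSeries.coeff_succ_X_mul, PowerSeries.coeff_derivative, PowerSeries.coeff_mul,
        Finset.sum_eq_single (0, N + 1)] at h1
      · simp only [PowerSeries.coeff_zero_eq_constantCoeff] at h1
        rw [cc_G F hF, one_mul] at h1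
        rw [h1]
        change _ - (-PowerSeries.coeff (N + 1) (G F N : PowerSeries ℤ)) • ((N : ℤ) + 1) = 0
        rw [smul_eq_mul]; ring
      · rintro ⟨i, j⟩ hij hne
        rw [Finset.HasAntidiagonal.mem_antidiagonal] at hij
        simp only at hij
        have : j ≤ N := by
          by_contra hj
          apply hne
          have : i = 0 := by omega
          have : j = N + 1 := by omega
          simp [*]
        simp only
        rw [ih j this, mul_zero]
      · intro h
        exact absurd (Finset.HasAntidiagonal.mem_antidiagonal.mpr (by simp)) h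

theorem D_F_sum (F : (PowerSeries ℤ)ˣ) (N : ℕ) :
    D F = D (G F N) + ∑ m ∈ Finset.range N, gg F (m + 1) • D (E m) := by
  induction N with
  | zero => rw [Finset.sum_range_zero, add_zero]; rfl
  | succ N ih =>
    rw [Finset.sum_range_succ, D_G_succ, ih]; abel

theorem coeff_D_F (F : (PowerSeries ℤ)ˣ) (hF : PowerSeries.constantCoeff (F : PowerSeries ℤ) = 1) (n : ℕ) (hn : 1 ≤ n) :
    PowerSeries.coeff n (D F) = ∑ d ∈ n.divisors, (d : ℤ) * gg F d := by
  rw [D_F_sum F n, map_add, coeff_low F hF n n le_rfl, zero_add, map_sum]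
  have h1 : ∀ m ∈ Finset.range n, PowerSeries.coeff n (gg F (m + 1) • D (E m)) =
      if (m + 1) ∣ n then ((m + 1 : ℕ) : ℤ) * gg F (m + 1) else 0 := by
    intro m _
    rw [map_smul, coeff_D_E, smul_eq_mul]
    by_cases h : (m + 1) ∣ n
    · rw [if_pos ⟨hn, h⟩, if_pos h]; push_cast; ring
    · rw [if_neg (fun h2 => h h2.2), if_neg h, mul_zero]
  rw [Finset.sum_congr rfl h1]
  have h2 : n.divisors = (Finset.Ico 1 (n + 1)).filter (· ∣ n) := rfl
  rw [h2, Finset.sum_filter, Finset.sum_Ico_eq_sum_range, Nat.add_sub_cancel]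
  apply Finset.sum_congr rfl
  intro m _
  rw [add_comm 1 m]

/-! ## The roots -/

open Polynomial in
/-- the unit `1 - t X` over `ℂ` -/
def L (t : ℂ) : (PowerSeries ℂ)ˣ where
  val := 1 - PowerSeries.C t * PowerSeries.X
  inv := PowerSeries.mk fun n => t ^ n
  val_inv := by
    ext n
    rw [sub_mul, one_mul, map_sub, mul_assoc, PowerSeries.coeff_C_mul, PowerSeries.coeff_mk, PowerSeries.coeff_one]
    cases n with
    | zero => simp
    | succ n => rw [PowerSeries.coeff_succ_X_mul, PowerSeries.coeff_mk, pow_succ]; simp [mul_comm]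
  inv_val := by
    ext n
    rw [mul_sub, mul_one, map_sub, mul_comm, mul_assoc, PowerSeries.coeff_C_mul, PowerSeries.coeff_mk, PowerSeries.coeff_one]
    cases n with
    | zero => simp
    | succ n => rw [PowerSeries.coeff_succ_X_mul, PowerSeries.coeff_mk, pow_succ]; simp [mul_comm]

theorem coeff_D_L (t : ℂ) (n : ℕ) (hn : 1 ≤ n) : PowerSeries.coeff n (D (L t)) = t ^ n := by
  obtain ⟨m, rfl⟩ := Nat.exists_eq_add_of_le hn
  have h : D (L t) = PowerSeries.X * (PowerSeries.C t * (((L t)⁻¹ : (PowerSeries ℂ)ˣ) : PowerSeries ℂ)) := by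
    unfold D
    change -(PowerSeries.X * PowerSeries.derivative ℂ (1 - PowerSeries.C t * PowerSeries.X) * _) = _
    rw [map_sub, PowerSeries.derivative_one, Derivation.leibniz, PowerSeries.derivative_C, PowerSeries.derivative_X]
    simp only [smul_eq_mul]
    ring
  rw [h, add_comm 1 m, PowerSeries.coeff_succ_X_mul, PowerSeries.coeff_C_mul]
  change t * PowerSeries.coeff m (PowerSeries.mk fun n => t ^ n) = _
  rw [PowerSeries.coeff_mk, pow_succ, mul_comm]

/-- base change of units of the power series ring -/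
def bc : (PowerSeries ℤ)ˣ →* (PowerSeries ℂ)ˣ := Units.map (PowerSeries.map (Int.castRingHom ℂ)).toMonoidHom

theorem bc_val (F : (PowerSeries ℤ)ˣ) : ((bc F : (PowerSeries ℂ)ˣ) : PowerSeries ℂ) =
    PowerSeries.map (Int.castRingHom ℂ) (F : PowerSeries ℤ) := rfl

theorem D_bc (F : (PowerSeries ℤ)ˣ) : D (bc F) = PowerSeries.map (Int.castRingHom ℂ) (D F) := by
  apply D_unique
  have h := congrArg (PowerSeries.map (Int.castRingHom ℂ)) (D_spec F)
  rw [map_mul, map_neg, map_mul, PowerSeries.map_X] at h
  rw [bc_val, h]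
  congr 2
  ext n
  rw [PowerSeries.coeff_map, PowerSeries.coeff_derivative, PowerSeries.coeff_derivative, PowerSeries.coeff_map]
  simp

theorem coeff_D_prod (s : Multiset ℂ) (n : ℕ) (hn : 1 ≤ n) :
    PowerSeries.coeff n (D ((s.map L).prod)) = (s.map fun α => α ^ n).sum := by
  induction s using Multiset.induction_on with
  | empty => simp [D_one]
  | cons a s ih => rw [Multiset.map_cons, Multiset.prod_cons, D_mul, map_add, ih, coeff_D_L a n hn, Multiset.map_cons, Multiset.sum_cons]

theorem val_prod (s : Multiset ℂ) : (((s.map L).prod : (PowerSeries ℂ)ˣ) : PowerSeries ℂ) =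
    (((s.map fun a => Polynomial.X - Polynomial.C a).prod.reverse : Polynomial ℂ) : PowerSeries ℂ) := by
  induction s using Multiset.induction_on with
  | empty =>
    rw [Multiset.map_zero, Multiset.prod_zero, Multiset.map_zero, Multiset.prod_zero, Units.val_one,
      ← Polynomial.C_1, Polynomial.reverse_C, Polynomial.C_1, Polynomial.coe_one]
  | cons a s ih =>
    rw [Multiset.map_cons, Multiset.prod_cons, Units.val_mul, ih, Multiset.map_cons, Multiset.prod_cons,
      Polynomial.reverse_mul_of_domain, Pool.Agent.Helper96.Salem.reverse_X_sub_C', Polynomial.coe_mul]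
    congr 1
    change 1 - PowerSeries.C a * PowerSeries.X = _
    simp

theorem monic_case (A : Polynomial ℤ) (hA : A.leadingCoeff = 1) : ∃ g : ℕ → ℤ, ∀ n : ℕ, 1 ≤ n →
    ((cx A).roots.map fun α => α ^ n).sum = ∑ d ∈ n.divisors, (d : ℂ) * g d := by
  have hinj : Function.Injective (Int.castRingHom ℂ) := Int.cast_injective
  have hcc : PowerSeries.constantCoeff ((A.reverse : Polynomial ℤ) : PowerSeries ℤ) = 1 := by
    rw [Polynomial.constantCoeff_coe, Polynomial.coeff_zero_reverse, hA]
  have hu : IsUnit ((A.reverse : Polynomial ℤ) : PowerSeries ℤ) := by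
    rw [PowerSeries.isUnit_iff_constantCoeff, hcc]; exact isUnit_one
  obtain ⟨F, hF⟩ := hu
  refine ⟨gg F, fun n hn => ?_⟩
  have h1 := coeff_D_F F (by rw [hF]; exact hcc) n hn
  have hmon : (cx A).Monic := by
    unfold cx
    exact (show A.Monic from hA).map _
  have hprod : ((cx A).roots.map fun a => Polynomial.X - Polynomial.C a).prod = cx A :=
    ((IsAlgClosed.splits (cx A)).eq_prod_roots_of_monic hmon).symm
  have h2 : bc F = ((cx A).roots.map L).prod := by
    apply Units.ext
    rw [val_prod, hprod, bc_val, hF]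
    have h3 : (cx A).reverse = A.reverse.map (Int.castRingHom ℂ) := by
      unfold cx
      rw [Polynomial.reverse, Polynomial.reverse, Polynomial.reflect_map,
        Polynomial.natDegree_map_eq_of_injective hinj]
    rw [h3]
    ext n
    simp
  rw [← coeff_D_prod _ n hn, ← h2, D_bc, PowerSeries.coeff_map, h1]
  simp

theorem hPow : StPow := by
  intro A hA
  rcases hA with hA | hA
  · exact monic_case A hA
  · obtain ⟨g, hg⟩ := monic_case (-A) (by rw [Polynomial.leadingCoeff_neg, hA, neg_neg])
    refine ⟨g, fun n hn => ?_⟩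
    have h : (cx (-A)).roots = (cx A).roots := by
      unfold cx
      rw [Polynomial.map_neg, Polynomial.roots_neg]
    rw [← h]
    exact hg n hn

end

end Pool.Agent.Helper37.SL
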